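import Pool.Agent.MWV.Stmts

/-!
# One sided insertion (row INR of squad MWV)

Problem MP_23468a_al.
-/

set_option autoImplicit false

namespace Pool.Agent.MWV.H76

open Pool.Agent.Helper14_MV Pool.Agent.Helper2_MV
open Pool.Agent.MWV

variable {N : ℕ} {S : List ℕ → List ℕ → Prop}

/-- the substitution `0 ↦ h`, `1 ↦ c`, `2 ↦ w` -/
def g3 (h c : ℕ) (w : List ℕ) (a : ℕ) : List ℕ :=
  if a = 0 then [h] else if a = 1 then [c] else if a = 2 then w else []

theorem g3v (h c : ℕ) (w : List ℕ) (hh : h % 3 = 0) :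
    ∀ b, b % 3 = 0 → ∀ a ∈ g3 h c w b, a % 3 = 0 := by
  intro b hb a ha
  unfold g3 at ha
  split_ifs at ha with h0 h1 h2
  · rw [List.mem_singleton] at ha
    rw [ha]
    exact hh
  · omega
  · omega
  · simp at ha

theorem g3X (h c : ℕ) (w : List ℕ) : (X N 0).flatMap (g3 h c w) = X N h := by
  induction N with
  | zero => rfl
  | succ n ih =>
    rw [X, List.replicate_succ, List.flatMap_cons]
    change g3 h c w 0 ++ (X n 0).flatMap (g3 h c w) = _
    rw [ih]
    rfl

theorem cong (H : Wo N S) (p q : List ℕ) {u v : List ℕ} (h : S u v) :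
    S (p ++ (u ++ q)) (p ++ (v ++ q)) :=
  H.app (H.refl p) (H.app h (H.refl q))

theorem hxx (H : Wo N S) (hv : HvyStmt) (h : ℕ) (hh : h % 3 = 0) : S (X N h) (X N h ++ X N h) := by
  apply hv N S H
  · intro a ha; rw [List.eq_of_mem_replicate ha]; exact hh
  · intro a ha
    rcases List.mem_append.1 ha with ha | ha <;> (rw [List.eq_of_mem_replicate ha]; exact hh)
  · intro a; simp
  · intro a
    rw [List.count_append, List.count_replicate]
    split_ifs <;> simp

theorem h1x (H : Wo N S) (hv : HvyStmt) (h : ℕ) (hh : h % 3 = 0) : S [h] ([h] ++ X N h) := by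
  apply hv N S H
  · intro a ha; rw [List.mem_singleton.1 ha]; exact hh
  · intro a ha
    rcases List.mem_append.1 ha with ha | ha
    · rw [List.mem_singleton.1 ha]; exact hh
    · rw [List.eq_of_mem_replicate ha]; exact hh
  · intro a
    simp only [List.mem_append, List.mem_singleton, List.mem_replicate]
    tauto
  · intro a
    rw [List.count_append, List.count_replicate]
    split_ifs <;> simp

theorem hx1 (H : Wo N S) (hv : HvyStmt) (h : ℕ) (hh : h % 3 = 0) : S [h] (X N h ++ [h]) := by
  apply hv N S H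
  · intro a ha; rw [List.mem_singleton.1 ha]; exact hh
  · intro a ha
    rcases List.mem_append.1 ha with ha | ha
    · rw [List.eq_of_mem_replicate ha]; exact hh
    · rw [List.mem_singleton.1 ha]; exact hh
  · intro a
    simp only [List.mem_append, List.mem_singleton, List.mem_replicate]
    tauto
  · intro a
    rw [List.count_append, List.count_replicate]
    split_ifs <;> simp

theorem hxc (H : Wo N S) (hv : HvyStmt) (h c : ℕ) (hh : h % 3 = 0) (hc : c % 3 = 0) :
    S (X N h ++ [c]) (X N h ++ ([c] ++ X N h)) := by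
  apply hv N S H
  · intro a ha
    rcases List.mem_append.1 ha with ha | ha
    · rw [List.eq_of_mem_replicate ha]; exact hh
    · rw [List.mem_singleton.1 ha]; exact hc
  · intro a ha
    rcases List.mem_append.1 ha with ha | ha
    · rw [List.eq_of_mem_replicate ha]; exact hh
    · rcases List.mem_append.1 ha with ha | ha
      · rw [List.mem_singleton.1 ha]; exact hc
      · rw [List.eq_of_mem_replicate ha]; exact hh
  · intro a
    simp only [List.mem_append, List.mem_singleton, List.mem_replicate]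
    tauto
  · intro a
    rw [List.count_append, List.count_append, List.count_append, List.count_replicate]
    split_ifs <;> simp

theorem hcx (H : Wo N S) (hv : HvyStmt) (h c : ℕ) (hh : h % 3 = 0) (hc : c % 3 = 0) :
    S ([c] ++ X N h) (X N h ++ ([c] ++ X N h)) := by
  apply hv N S H
  · intro a ha
    rcases List.mem_append.1 ha with ha | ha
    · rw [List.mem_singleton.1 ha]; exact hc
    · rw [List.eq_of_mem_replicate ha]; exact hh
  · intro a ha
    rcases List.mem_append.1 ha with ha | ha
    · rw [List.eq_of_mem_replicate ha]; exact hh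
    · rcases List.mem_append.1 ha with ha | ha
      · rw [List.mem_singleton.1 ha]; exact hc
      · rw [List.eq_of_mem_replicate ha]; exact hh
  · intro a
    simp only [List.mem_append, List.mem_singleton, List.mem_replicate]
    tauto
  · intro a
    rw [List.count_append, List.count_append, List.count_append, List.count_replicate]
    split_ifs <;> simp

/-- one step to the right -/
theorem stp (H : Wo N S) (hv : HvyStmt) (h c : ℕ) (hh : h % 3 = 0) (p r : List ℕ)
    (hc : c % 3 = 0 ∨ (c ∈ r ∧ ra N S) ∨ (c ∈ p ∧ rb N S)) :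
    S (p ++ (X N h ++ c :: r)) (p ++ (X N h ++ c :: (X N h ++ r))) := by
  rcases hc with hc | ⟨hc, hr⟩ | ⟨hc, hr⟩
  · have h1 := cong H p r (hxc H hv h c hh hc)
    simpa using h1
  · obtain ⟨r1, r2, rfl⟩ := List.append_of_mem hc
    have h1 := H.sub (g3 h c r1) (g3v h c r1 hh) hr
    have h2 := cong H p r2 h1
    simpa [g3X, g3, List.flatMap_cons] using h2
  · obtain ⟨p1, p2, rfl⟩ := List.append_of_mem hc
    have h1 := H.sub (g3 h c p2) (g3v h c p2 hh) hr
    have h2 := cong H p1 r h1
    simpa [g3X, g3, List.flatMap_cons] using h2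

/-- one step to the left -/
theorem stq (H : Wo N S) (hv : HvyStmt) (h c : ℕ) (hh : h % 3 = 0) (p r : List ℕ)
    (hc : c % 3 = 0 ∨ (c ∈ r ∧ la N S) ∨ (c ∈ p ∧ lb N S)) :
    S (p ++ (c :: (X N h ++ r))) (p ++ (X N h ++ c :: (X N h ++ r))) := by
  rcases hc with hc | ⟨hc, hr⟩ | ⟨hc, hr⟩
  · have h1 := cong H p r (hcx H hv h c hh hc)
    simpa using h1
  · obtain ⟨r1, r2, rfl⟩ := List.append_of_mem hc
    have h1 := H.sub (g3 h c r1) (g3v h c r1 hh) hr
    have h2 := cong H p r2 h1
    simpa [g3X, g3, List.flatMap_cons] using h2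
  · obtain ⟨p1, p2, rfl⟩ := List.append_of_mem hc
    have h1 := H.sub (g3 h c p2) (g3v h c p2 hh) hr
    have h2 := cong H p1 r h1
    simpa [g3X, g3, List.flatMap_cons] using h2

theorem rgt (H : Wo N S) (hv : HvyStmt) (h : ℕ) (hh : h % 3 = 0) (q : List ℕ) (a : List ℕ) :
    ∀ p : List ℕ, Rp N S p q a →
      S (p ++ (X N h ++ (a ++ q))) (p ++ (X N h ++ (a ++ (X N h ++ q)))) := by
  induction a with
  | nil =>
    intro p _
    have h1 := cong H p q (hxx H hv h hh)
    rw [List.append_assoc (X N h)] at h1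
    exact h1
  | cons c a ih =>
    intro p hp
    have hc : c % 3 = 0 ∨ (c ∈ q ∧ ra N S) ∨ (c ∈ p ∧ rb N S) := by
      by_cases h0 : c % 3 = 0
      · exact Or.inl h0
      · exact Or.inr (hp c (by simp) h0)
    have h1 := stp H hv h c hh p (a ++ q) (by
      rcases hc with hc | hc | hc
      · exact Or.inl hc
      · exact Or.inr (Or.inl ⟨List.mem_append_right _ hc.1, hc.2⟩)
      · exact Or.inr (Or.inr hc))
    have h2 := ih (p ++ (X N h ++ [c])) (by
      intro d hd h0
      rcases hp d (List.mem_cons_of_mem _ hd) h0 with h3 | h3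
      · exact Or.inl h3
      · exact Or.inr ⟨List.mem_append_left _ h3.1, h3.2⟩)
    have h3 := stp H hv h c hh p (a ++ (X N h ++ q)) (by
      rcases hc with hc | hc | hc
      · exact Or.inl hc
      · exact Or.inr (Or.inl ⟨List.mem_append_right _ (List.mem_append_right _ hc.1), hc.2⟩)
      · exact Or.inr (Or.inr hc))
    have e1 : p ++ (X N h ++ c :: (X N h ++ (a ++ q))) =
        p ++ (X N h ++ [c]) ++ (X N h ++ (a ++ q)) := by simp
    have e2 : p ++ (X N h ++ [c]) ++ (X N h ++ (a ++ (X N h ++ q))) =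
        p ++ (X N h ++ c :: (X N h ++ (a ++ (X N h ++ q)))) := by simp
    rw [e1] at h1
    rw [e2] at h2
    exact H.trans h1 (H.trans h2 (H.symm h3))

theorem lft (H : Wo N S) (hv : HvyStmt) (h : ℕ) (hh : h % 3 = 0) (p : List ℕ) (a : List ℕ) :
    ∀ q : List ℕ, Lq N S p q a →
      S (p ++ (a ++ (X N h ++ q))) (p ++ (X N h ++ (a ++ (X N h ++ q)))) := by
  induction a using List.reverseRecOn with
  | nil =>
    intro q _
    have h1 := cong H p q (hxx H hv h hh)
    rw [List.append_assoc (X N h)] at h1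
    exact h1
  | append_singleton a c ih =>
    intro q hq
    have hc : c % 3 = 0 ∨ (c ∈ q ∧ la N S) ∨ (c ∈ p ∧ lb N S) := by
      by_cases h0 : c % 3 = 0
      · exact Or.inl h0
      · exact Or.inr (hq c (by simp) h0)
    have h1 := stq H hv h c hh (p ++ a) q (by
      rcases hc with hc | hc | hc
      · exact Or.inl hc
      · exact Or.inr (Or.inl hc)
      · exact Or.inr (Or.inr ⟨List.mem_append_left _ hc.1, hc.2⟩))
    have h2 := ih (c :: (X N h ++ q)) (by
      intro d hd h0
      rcases hq d (List.mem_append_left _ hd) h0 with h3 | h3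
      · exact Or.inl ⟨List.mem_cons_of_mem _ (List.mem_append_right _ h3.1), h3.2⟩
      · exact Or.inr h3)
    have h3 := stq H hv h c hh (p ++ (X N h ++ a)) q (by
      rcases hc with hc | hc | hc
      · exact Or.inl hc
      · exact Or.inr (Or.inl hc)
      · exact Or.inr (Or.inr ⟨List.mem_append_left _ hc.1, hc.2⟩))
    have e1 : p ++ a ++ (c :: (X N h ++ q)) = p ++ (a ++ [c] ++ (X N h ++ q)) := by simp
    have e2 : p ++ a ++ (X N h ++ c :: (X N h ++ q)) =
        p ++ (a ++ (X N h ++ c :: (X N h ++ q))) := by simp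
    have e3 : p ++ (X N h ++ a) ++ (c :: (X N h ++ q)) =
        p ++ (X N h ++ (a ++ [c] ++ (X N h ++ q))) := by simp
    have e4 : p ++ (X N h ++ a) ++ (X N h ++ c :: (X N h ++ q)) =
        p ++ (X N h ++ (a ++ (X N h ++ c :: (X N h ++ q)))) := by simp
    rw [e1, e2] at h1
    rw [e3, e4] at h3
    exact H.trans h1 (H.trans h2 (H.symm h3))

theorem inr (hv : HvyStmt) : InrStmt := by
  intro N S H p a q h hh
  refine ⟨fun hp => ?_, fun hq => ?_⟩
  · have h1 := cong H p (a ++ q) (h1x H hv h hh)
    have h2 := rgt H hv h hh q a (p ++ [h]) (by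
      intro d hd h0
      rcases hp d hd h0 with h3 | h3
      · exact Or.inl h3
      · exact Or.inr ⟨List.mem_append_left _ h3.1, h3.2⟩)
    have h3 := cong H p (a ++ (X N h ++ q)) (h1x H hv h hh)
    have e1 : p ++ ([h] ++ X N h ++ (a ++ q)) = p ++ [h] ++ (X N h ++ (a ++ q)) := by simp
    have e2 : p ++ ([h] ++ X N h ++ (a ++ (X N h ++ q))) =
        p ++ [h] ++ (X N h ++ (a ++ (X N h ++ q))) := by simp
    rw [e1] at h1
    rw [e2] at h3
    exact H.trans h1 (H.trans h2 (H.symm h3))
  · have h1 := cong H (p ++ a) q (hx1 H hv h hh)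
    have h2 := lft H hv h hh p a (h :: q) (by
      intro d hd h0
      rcases hq d hd h0 with h3 | h3
      · exact Or.inl ⟨List.mem_cons_of_mem _ h3.1, h3.2⟩
      · exact Or.inr h3)
    have h3 := cong H (p ++ (X N h ++ a)) q (hx1 H hv h hh)
    have e1 : p ++ a ++ ([h] ++ q) = p ++ (a ++ h :: q) := by simp
    have e2 : p ++ a ++ (X N h ++ [h] ++ q) = p ++ (a ++ (X N h ++ h :: q)) := by simp
    have e3 : p ++ (X N h ++ a) ++ ([h] ++ q) = p ++ (X N h ++ (a ++ h :: q)) := by simp
    have e4 : p ++ (X N h ++ a) ++ (X N h ++ [h] ++ q) =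
        p ++ (X N h ++ (a ++ (X N h ++ h :: q))) := by simp
    rw [e1, e2] at h1
    rw [e3, e4] at h3
    exact H.trans h1 (H.trans h2 (H.symm h3))

end Pool.Agent.MWV.H76
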